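import Pool.Agent.Lib.MP_7b7e48_nt.BR.E3

/-!
# The field `bs` of the input of the frame for composite windows of `Y` (TC3): definitions

The elements of the window `S.WY i` are the products `b' b''`, `b' ∈ WA i`, `b'' ∈ WB i`, of primes. `famY3 S WA WB` is the family of `Y` (first all `b'`, then all `b''`,
the free primes, the other marks).
`subY3 S WA WB p I s r`: the sub-family in which `b'_i ≡ s i`, `b''_i ≡ r i` modulo `p` for `i ∈ I`.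
-/

set_option autoImplicit false

open Finset

namespace Pool.Agent.Lib.T3B

open Pool.Agent.Lib.TC (MS Msr)
open Pool.Agent.Lib.TCB (famX)

/-- the windows of `Y` consist of products -/
structure Cmp (S : MS) (WA WB : Fin (S.k + 1) → Finset ℕ) : Prop where
  eq : ∀ i, S.WY i = (WA i ×ˢ WB i).image fun x => x.1 * x.2

/-- the sets of `Y` in one sequence: first all `b'`, then all `b''` -/
def famY3 (S : MS) (WA WB : Fin (S.k + 1) → Finset ℕ) : Fin (S.k + 1 + (S.k + 1) + S.n0 + S.nY) → Finset ℕ :=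
  Fin.append (Fin.append (Fin.append WA WB) S.FY) S.OY

/-- the data of the frame which belong to a mark system with composite windows -/
def datS3 (S : MS) (WA WB : Fin (S.k + 1) → Finset ℕ) (J0 J1 J2 y0 : ℕ) : TCF.Dat where
  J0 := J0
  J1 := J1
  J2 := J2
  y0 := y0
  nX := S.k + 1 + S.n0 + S.nX
  nY := S.k + 1 + (S.k + 1) + S.n0 + S.nY
  BX := famX S
  BY := famY3 S WA WB

/-- all sets consist of primes `> y0` which do not divide `N`; the sets of `X` are disjoint, the sets of `Y` are disjoint -/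
structure SetsOk3 (S : MS) (WA WB : Fin (S.k + 1) → Finset ℕ) (N y0 : ℕ) : Prop where
  px : ∀ c, ∀ p ∈ famX S c, p.Prime ∧ ¬ p ∣ N ∧ y0 < p
  py : ∀ c, ∀ p ∈ famY3 S WA WB c, p.Prime ∧ ¬ p ∣ N ∧ y0 < p
  dx : ∀ c c', c ≠ c' → Disjoint (famX S c) (famX S c')
  dy : ∀ c c', c ≠ c' → Disjoint (famY3 S WA WB c) (famY3 S WA WB c')

/-- the two factors of the windows of `Y` are equidistributed modulo the primes `≤ y1` of the small sieve -/
structure WinOk3 (S : MS) (WA WB : Fin (S.k + 1) → Finset ℕ) (T : TC.Dat) (y1 : ℕ) : Prop where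
  loA : ∀ i, ∀ p ∈ T.PS, p ≤ y1 → ∀ r : ℕ, ¬ p ∣ r →
    (∑ β ∈ WA i, 1 / (β : ℝ)) / (4 * ((p : ℝ) - 1)) ≤ ∑ β ∈ (WA i).filter (fun β => β ≡ r [MOD p]), 1 / (β : ℝ)
  upA : ∀ i, ∀ p ∈ T.PS, p ≤ y1 → ∀ r : ℕ, ¬ p ∣ r →
    ∑ β ∈ (WA i).filter (fun β => β ≡ r [MOD p]), 1 / (β : ℝ) ≤ 4 / ((p : ℝ) - 1) * ∑ β ∈ WA i, 1 / (β : ℝ)
  loB : ∀ i, ∀ p ∈ T.PS, p ≤ y1 → ∀ r : ℕ, ¬ p ∣ r →
    (∑ β ∈ WB i, 1 / (β : ℝ)) / (4 * ((p : ℝ) - 1)) ≤ ∑ β ∈ (WB i).filter (fun β => β ≡ r [MOD p]), 1 / (β : ℝ)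
  upB : ∀ i, ∀ p ∈ T.PS, p ≤ y1 → ∀ r : ℕ, ¬ p ∣ r →
    ∑ β ∈ (WB i).filter (fun β => β ≡ r [MOD p]), 1 / (β : ℝ) ≤ 4 / ((p : ℝ) - 1) * ∑ β ∈ WB i, 1 / (β : ℝ)

/-- the windows `i ∈ I` reduced to the class `r i` modulo `p` -/
def redW {k : ℕ} (W : Fin (k + 1) → Finset ℕ) (p : ℕ) (I : Finset (Fin (k + 1))) (r : Fin (k + 1) → ℕ) : Fin (k + 1) → Finset ℕ :=
  fun i => if i ∈ I then (W i).filter (fun β => β ≡ r i [MOD p]) else W i

/-- sub-families -/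
def subY3 (S : MS) (WA WB : Fin (S.k + 1) → Finset ℕ) (p : ℕ) (I : Finset (Fin (S.k + 1))) (s r : Fin (S.k + 1) → ℕ) :
    Fin (S.k + 1 + (S.k + 1) + S.n0 + S.nY) → Finset ℕ :=
  Fin.append (Fin.append (Fin.append (redW WA p I s) (redW WB p I r)) S.FY) S.OY

/-- the data with a sub-family -/
def datE3 (S : MS) (WA WB : Fin (S.k + 1) → Finset ℕ) (J0 J1 J2 y0 p : ℕ) (I : Finset (Fin (S.k + 1))) (s r : Fin (S.k + 1) → ℕ) : TCF.Dat where
  J0 := J0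
  J1 := J1
  J2 := J2
  y0 := y0
  nX := S.k + 1 + S.n0 + S.nX
  nY := S.k + 1 + (S.k + 1) + S.n0 + S.nY
  BX := famX S
  BY := subY3 S WA WB p I s r

/-- the possible classes of the primes `b'_i`, `i ∈ I` -/
def clsS {k : ℕ} (p : ℕ) (I : Finset (Fin (k + 1))) : Finset (Fin (k + 1) → ℕ) :=
  Fintype.piFinset fun i => if i ∈ I then (range p).filter (fun s => ¬ p ∣ s) else {0}

/-- the class `r` modulo `p` with `s r ≡ m` -/
def rr (p m s : ℕ) : ℕ := ((m : ZMod p) * (s : ZMod p)⁻¹).val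

theorem rr_lt {p : ℕ} (hp : p.Prime) (m s : ℕ) : rr p m s < p := by
  haveI := Fact.mk hp
  exact ZMod.val_lt _

theorem rr_not_dvd {p : ℕ} (hp : p.Prime) {m s : ℕ} (hm : ¬ p ∣ m) (hs : ¬ p ∣ s) : ¬ p ∣ rr p m s := by
  haveI := Fact.mk hp
  intro h
  have h1 : ((rr p m s : ℕ) : ZMod p) = 0 := (ZMod.natCast_eq_zero_iff _ _).2 h
  unfold rr at h1
  rw [ZMod.natCast_zmod_val] at h1
  rcases mul_eq_zero.1 h1 with h2 | h2
  · exact hm ((ZMod.natCast_eq_zero_iff _ _).1 h2)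
  · exact hs ((ZMod.natCast_eq_zero_iff _ _).1 (inv_eq_zero.1 h2))

theorem rr_spec {p : ℕ} (hp : p.Prime) {m a b : ℕ} (ha : ¬ p ∣ a) (h : a * b ≡ m [MOD p]) : b ≡ rr p m (a % p) [MOD p] := by
  haveI := Fact.mk hp
  refine (ZMod.natCast_eq_natCast_iff _ _ _).1 ?_
  unfold rr
  rw [ZMod.natCast_zmod_val]
  have h1 : ((a * b : ℕ) : ZMod p) = (m : ZMod p) := (ZMod.natCast_eq_natCast_iff _ _ _).2 h
  have h2 : ((a % p : ℕ) : ZMod p) = (a : ZMod p) := by rw [ZMod.natCast_mod]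
  have h3 : (a : ZMod p) ≠ 0 := fun h0 => ha ((ZMod.natCast_eq_zero_iff _ _).1 h0)
  rw [h2, ← h1, Nat.cast_mul]
  field_simp

end Pool.Agent.Lib.T3B
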