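import Pool.Agent.Lib.MP_7b7e48_nt.T3B.E1

/-!
# Module E4: the tuples of `Y` and the family `famY3`

`toY f`: the tuple of `Y` which belongs to `f ∈ piFinset (famY3 S WA WB)` (`ν_i = f(A i) f(B i)`), `∏ f = prY (toY f)`; bijective onto `S.MY` if the sets are disjoint sets of primes.
-/

set_option autoImplicit false

open Finset

namespace Pool.Agent.Lib.T3B

open Pool.Agent.Lib.TC (MS Msr)
open Pool.Agent.Lib.TCF (TUP pht rho ph)
open Pool.Agent.Lib.TCB (famX jX jX_mem jX_inj prX_eq prod_inj pht_card BdS LkS wD mem_TUPX prod_sq sum_TUP' rho_eq sum_MX)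

variable {S : MS} {WA WB : Fin (S.k + 1) → Finset ℕ}

/-- the tuple of `Y` -/
def toY (S : MS) (f : Fin (S.k + 1 + (S.k + 1) + S.n0 + S.nY) → ℕ) : S.TY :=
  (fun i => f (Fin.castAdd S.nY (Fin.castAdd S.n0 (Fin.castAdd (S.k + 1) i))) *
      f (Fin.castAdd S.nY (Fin.castAdd S.n0 (Fin.natAdd (S.k + 1) i))),
    fun i => f (Fin.castAdd S.nY (Fin.natAdd (S.k + 1 + (S.k + 1)) i)),
    fun i => f (Fin.natAdd (S.k + 1 + (S.k + 1) + S.n0) i))

theorem prY_toY (f : Fin (S.k + 1 + (S.k + 1) + S.n0 + S.nY) → ℕ) : S.prY id (toY S f) = ∏ c, f c := by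
  rw [Fin.prod_univ_add, Fin.prod_univ_add, Fin.prod_univ_add]
  unfold MS.prY toY
  simp only [id_eq]
  rw [prod_mul_distrib]

theorem toY_mem (hc : Cmp S WA WB) {f : Fin (S.k + 1 + (S.k + 1) + S.n0 + S.nY) → ℕ} (hf : f ∈ Fintype.piFinset (famY3 S WA WB)) :
    toY S f ∈ S.MY := by
  rw [Fintype.mem_piFinset] at hf
  unfold MS.MY toY
  rw [mem_product, mem_product, Fintype.mem_piFinset, Fintype.mem_piFinset, Fintype.mem_piFinset]
  refine ⟨fun i => ?_, fun i => ?_, fun i => ?_⟩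
  · have h1 := hf (Fin.castAdd S.nY (Fin.castAdd S.n0 (Fin.castAdd (S.k + 1) i)))
    have h2 := hf (Fin.castAdd S.nY (Fin.castAdd S.n0 (Fin.natAdd (S.k + 1) i)))
    unfold famY3 at h1 h2
    rw [Fin.append_left, Fin.append_left, Fin.append_left] at h1
    rw [Fin.append_left, Fin.append_left, Fin.append_right] at h2
    rw [hc.eq i, mem_image]
    exact ⟨(_, _), mem_product.2 ⟨h1, h2⟩, rfl⟩
  · have h1 := hf (Fin.castAdd S.nY (Fin.natAdd (S.k + 1 + (S.k + 1)) i))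
    unfold famY3 at h1
    rwa [Fin.append_left, Fin.append_right] at h1
  · have h1 := hf (Fin.natAdd (S.k + 1 + (S.k + 1) + S.n0) i)
    unfold famY3 at h1
    rwa [Fin.append_right] at h1

theorem toY_surj (hc : Cmp S WA WB) {ν : S.TY} (hν : ν ∈ S.MY) : ∃ f ∈ Fintype.piFinset (famY3 S WA WB), toY S f = ν := by
  unfold MS.MY at hν
  rw [mem_product, mem_product, Fintype.mem_piFinset, Fintype.mem_piFinset, Fintype.mem_piFinset] at hν
  obtain ⟨g1, g2, g3⟩ := hν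
  have g4 : ∀ i, ∃ x : ℕ × ℕ, x.1 ∈ WA i ∧ x.2 ∈ WB i ∧ x.1 * x.2 = ν.1 i := by
    intro i
    have h := g1 i
    rw [hc.eq i, mem_image] at h
    obtain ⟨x, hx, hx2⟩ := h
    rw [mem_product] at hx
    exact ⟨x, hx.1, hx.2, hx2⟩
  choose ab hA hB hAB using g4
  refine ⟨Fin.append (Fin.append (Fin.append (fun i => (ab i).1) fun i => (ab i).2) ν.2.1) ν.2.2, ?_, ?_⟩
  · rw [Fintype.mem_piFinset]
    intro c
    unfold famY3
    refine Fin.addCases (fun c => ?_) (fun c => ?_) c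
    · rw [Fin.append_left, Fin.append_left]
      refine Fin.addCases (fun c => ?_) (fun c => ?_) c
      · rw [Fin.append_left, Fin.append_left]
        refine Fin.addCases (fun c => ?_) (fun c => ?_) c
        · rw [Fin.append_left, Fin.append_left]
          exact hA c
        · rw [Fin.append_right, Fin.append_right]
          exact hB c
      · rw [Fin.append_right, Fin.append_right]
        exact g2 c
    · rw [Fin.append_right, Fin.append_right]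
      exact g3 c
  · unfold toY
    refine Prod.ext (funext fun i => ?_) (Prod.ext (funext fun i => ?_) (funext fun i => ?_))
    · simp only [Fin.append_left, Fin.append_right]
      exact hAB i
    · simp only [Fin.append_left, Fin.append_right]
    · simp only [Fin.append_right]

section ok

variable {N y0 : ℕ} (h : SetsOk3 S WA WB N y0) (hc : Cmp S WA WB)
include h

theorem SetsOk3.prodInj {f g : Fin (S.k + 1 + (S.k + 1) + S.n0 + S.nY) → ℕ} (hf : f ∈ Fintype.piFinset (famY3 S WA WB))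
    (hg : g ∈ Fintype.piFinset (famY3 S WA WB)) (he : ∏ c, f c = ∏ c, g c) : f = g :=
  prod_inj (fun c p hp => (h.py c p hp).1) h.dy hf hg he

theorem SetsOk3.sqX {μ : S.TX} (hμ : μ ∈ S.MX) : Squarefree (S.prX id μ) := by
  rw [prX_eq]
  exact prod_sq (fun c p hp => (h.px c p hp).1) h.dx (jX_mem hμ)

theorem SetsOk3.pX {μ : S.TX} (hμ : μ ∈ S.MX) {p : ℕ} (hp : p.Prime) (hd : p ∣ S.prX id μ) : ¬ p ∣ N ∧ y0 < p := by
  rw [prX_eq] at hd
  obtain ⟨c, _, h1⟩ := (Prime.dvd_finsetProd_iff hp.prime _).1 hd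
  have h2 := Fintype.mem_piFinset.1 (jX_mem hμ) c
  have h3 := h.px c _ h2
  have h4 : p = jX S μ c := (Nat.prime_dvd_prime_iff_eq hp h3.1).1 h1
  rw [h4]
  exact h3.2

theorem SetsOk3.sumX {M : Type*} [AddCommMonoid M] (F : ℕ → M) : ∑ t ∈ TUP (famX S), F t = ∑ μ ∈ S.MX, F (S.prX id μ) := by
  rw [sum_TUP' (fun c p hp => (h.px c p hp).1) h.dx, ← sum_MX S fun f => F (∏ c, f c)]
  refine sum_congr rfl fun μ _ => ?_
  rw [prX_eq]
  rfl

include hc

theorem SetsOk3.sqY {ν : S.TY} (hν : ν ∈ S.MY) : Squarefree (S.prY id ν) := by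
  obtain ⟨f, hf, rfl⟩ := toY_surj hc hν
  rw [prY_toY]
  exact prod_sq (fun c p hp => (h.py c p hp).1) h.dy hf

theorem SetsOk3.pY {ν : S.TY} (hν : ν ∈ S.MY) {p : ℕ} (hp : p.Prime) (hd : p ∣ S.prY id ν) : ¬ p ∣ N ∧ y0 < p := by
  obtain ⟨f, hf, rfl⟩ := toY_surj hc hν
  rw [prY_toY] at hd
  obtain ⟨c, _, h1⟩ := (Prime.dvd_finsetProd_iff hp.prime _).1 hd
  have h2 := Fintype.mem_piFinset.1 hf c
  have h3 := h.py c _ h2
  have h4 : p = f c := (Nat.prime_dvd_prime_iff_eq hp h3.1).1 h1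
  rw [h4]
  exact h3.2

theorem SetsOk3.injY {ν ν' : S.TY} (hν : ν ∈ S.MY) (hν' : ν' ∈ S.MY) (he : S.prY id ν = S.prY id ν') : ν = ν' := by
  obtain ⟨f, hf, rfl⟩ := toY_surj hc hν
  obtain ⟨g, hg, rfl⟩ := toY_surj hc hν'
  rw [prY_toY, prY_toY] at he
  rw [h.prodInj hf hg he]

/-- sums over the tuples of `Y` -/
theorem SetsOk3.sum_MY {M : Type*} [AddCommMonoid M] (F : S.TY → M) :
    ∑ ν ∈ S.MY, F ν = ∑ f ∈ Fintype.piFinset (famY3 S WA WB), F (toY S f) := by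
  symm
  refine sum_nbij (toY S) (fun f hf => toY_mem hc hf) ?_ ?_ fun _ _ => rfl
  · intro f hf g hg he
    refine h.prodInj hf hg ?_
    rw [← prY_toY, ← prY_toY, he]
  · intro ν hν
    obtain ⟨f, h1, h2⟩ := toY_surj hc hν
    exact ⟨f, h1, h2⟩

theorem SetsOk3.sumY {M : Type*} [AddCommMonoid M] (F : ℕ → M) : ∑ t ∈ TUP (famY3 S WA WB), F t = ∑ ν ∈ S.MY, F (S.prY id ν) := by
  rw [sum_TUP' (fun c p hp => (h.py c p hp).1) h.dy, h.sum_MY hc]
  exact sum_congr rfl fun f _ => by rw [prY_toY]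

omit h hc in
theorem rhoX3 (S : MS) : rho (famX S) = ∑ μ ∈ S.MX, 1 / ((S.prX id μ : ℕ) : ℝ) := by
  rw [rho_eq, ← sum_MX S fun f => ∏ c, 1 / (f c : ℝ)]
  refine sum_congr rfl fun μ _ => ?_
  rw [prX_eq, prod_div_distrib, prod_const_one]
  push_cast
  rfl

theorem SetsOk3.rhoY : rho (famY3 S WA WB) = ∑ ν ∈ S.MY, 1 / ((S.prY id ν : ℕ) : ℝ) := by
  rw [rho_eq, h.sum_MY hc]
  refine sum_congr rfl fun f _ => ?_
  rw [prY_toY, prod_div_distrib, prod_const_one]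
  push_cast
  rfl

theorem SetsOk3.LkS_iff {T : TC.Dat} {μ : S.TX} {ν : S.TY} (hμ : μ ∈ S.MX) (hν : ν ∈ S.MY)
    (X Y' : ℕ) : LkS S T X (S.prX id μ) Y' (S.prY id ν) ↔ S.Linked (wD T ((X - Y') / T.N)) μ ν X := by
  constructor
  · rintro ⟨μ', h1, ν', h2, h3, h4, h5⟩
    rw [← h.injX h1 hμ h3, ← h.injY hc h2 hν h4]
    exact h5
  · intro h1
    exact ⟨μ, hμ, ν, hν, rfl, rfl, h1⟩

theorem SetsOk3.BdS_iff {T : TC.Dat} {μ : S.TX} {ν : S.TY} (hμ : μ ∈ S.MX) (hν : ν ∈ S.MY)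
    (y1 : ℕ) : BdS S T y1 (S.prX id μ) (S.prY id ν) ↔ S.badpair T 0 y1 μ ν := by
  constructor
  · rintro ⟨μ', h1, ν', h2, h3, h4, h5⟩
    rw [← h.injX h1 hμ h3, ← h.injY hc h2 hν h4]
    exact h5
  · intro h1
    exact ⟨μ, hμ, ν, hν, rfl, rfl, h1⟩

end ok

theorem mem_TUPY3 (hc : Cmp S WA WB) {t : ℕ} : t ∈ TUP (famY3 S WA WB) ↔ ∃ ν ∈ S.MY, S.prY id ν = t := by
  unfold TUP
  rw [mem_image]
  constructor
  · rintro ⟨f, hf, rfl⟩
    exact ⟨toY S f, toY_mem hc hf, prY_toY f⟩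
  · rintro ⟨ν, h1, rfl⟩
    obtain ⟨f, hf, rfl⟩ := toY_surj hc h1
    exact ⟨f, hf, (prY_toY f).symm⟩

end Pool.Agent.Lib.T3B
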