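import Pool.Agent.Lib.MP_7b7e48_nt.T3B.E0

/-!
# Module E1: the bad tuples of `Y` are in few sub-families

As in BR.E1. `t' ∈ TUP (famY3 S WA WB)` with `BdS S T y1 (prX μ) t'`: `t' = prY ν` with `badpair μ ν`, so `ν_i ≡ μ_i [MOD p]` for `i ∈ I`, `|I| = k - 1`, `p ≤ y1`; `ν_i = b'_i b''_i`, so `b''_i ≡ rr p μ_i (b'_i % p)`.
-/

set_option autoImplicit false

open Finset

namespace Pool.Agent.Lib.T3B

open Pool.Agent.Lib.RG (Rough)
open Pool.Agent.Lib.RH (Prm MM JJ)
open Pool.Agent.Lib.TC (MS Msr)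
open Pool.Agent.Lib.TCF (TUP pht rho ph Mul TM NL NLt wt len Rgh1 VM PY BB FamOk)
open Pool.Agent.Lib.TCB (famX jX jX_mem jX_inj prX_eq prod_inj pht_card BdS mem_TUPX)

variable {S : MS} {WA WB : Fin (S.k + 1) → Finset ℕ}

theorem sets_of_ok3 {P : Prm} {J0 J1 J2 y0 R : ℕ} (h : (datS3 S WA WB J0 J1 J2 y0).Ok P R) : SetsOk3 S WA WB R y0 :=
  ⟨h.fx.pr, h.fy.pr, h.fx.disj, h.fy.disj⟩

theorem redW_sub {k : ℕ} (W : Fin (k + 1) → Finset ℕ) (p : ℕ) (I : Finset (Fin (k + 1))) (r : Fin (k + 1) → ℕ) (c : Fin (k + 1)) :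
    redW W p I r c ⊆ W c := by
  unfold redW
  split_ifs
  · exact filter_subset _ _
  · exact Subset.refl _

theorem append_sub {m n : ℕ} {A A' : Fin m → Finset ℕ} {B B' : Fin n → Finset ℕ} (hA : ∀ c, A c ⊆ A' c) (hB : ∀ c, B c ⊆ B' c)
    (c : Fin (m + n)) : Fin.append A B c ⊆ Fin.append A' B' c := by
  refine Fin.addCases (fun c => ?_) (fun c => ?_) c
  · rw [Fin.append_left, Fin.append_left]
    exact hA c
  · rw [Fin.append_right, Fin.append_right]
    exact hB c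

theorem subY3_sub (p : ℕ) (I : Finset (Fin (S.k + 1))) (s r : Fin (S.k + 1) → ℕ) (c : Fin (S.k + 1 + (S.k + 1) + S.n0 + S.nY)) :
    subY3 S WA WB p I s r c ⊆ famY3 S WA WB c :=
  append_sub (append_sub (append_sub (redW_sub WA p I s) (redW_sub WB p I r)) fun _ => Subset.refl _) (fun _ => Subset.refl _) c

theorem SetsOk3.injX {N y0 : ℕ} (h : SetsOk3 S WA WB N y0) {μ μ' : S.TX} (hμ : μ ∈ S.MX) (hμ' : μ' ∈ S.MX)
    (he : S.prX id μ = S.prX id μ') : μ = μ' := by
  rw [prX_eq, prX_eq] at he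
  exact jX_inj S (prod_inj (fun c p hp => (h.px c p hp).1) h.dx (jX_mem hμ) (jX_mem hμ') he)

private theorem E1_append {m n : ℕ} {A : Fin m → Finset ℕ} {B : Fin n → Finset ℕ} {f : Fin m → ℕ} {g : Fin n → ℕ}
    (hf : f ∈ Fintype.piFinset A) (hg : g ∈ Fintype.piFinset B) : Fin.append f g ∈ Fintype.piFinset (Fin.append A B) := by
  rw [Fintype.mem_piFinset] at hf hg ⊢
  intro c
  refine Fin.addCases (fun c => ?_) (fun c => ?_) c
  · rw [Fin.append_left, Fin.append_left]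
    exact hf c
  · rw [Fin.append_right, Fin.append_right]
    exact hg c

private theorem E1_prod {m n : ℕ} (f : Fin m → ℕ) (g : Fin n → ℕ) : ∏ c, Fin.append f g c = (∏ c, f c) * ∏ c, g c := by
  rw [Fin.prod_univ_add]
  congr 1
  · exact prod_congr rfl fun c _ => Fin.append_left _ _ _
  · exact prod_congr rfl fun c _ => Fin.append_right _ _ _

private theorem E1_redW {k : ℕ} {W : Fin (k + 1) → Finset ℕ} {p : ℕ} {I : Finset (Fin (k + 1))} {r f : Fin (k + 1) → ℕ}
    (hf : ∀ i, f i ∈ W i) (h : ∀ i ∈ I, f i ≡ r i [MOD p]) : f ∈ Fintype.piFinset (redW W p I r) := by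
  rw [Fintype.mem_piFinset]
  intro i
  unfold redW
  split_ifs with hi
  · exact mem_filter.2 ⟨hf i, h i hi⟩
  · exact hf i

/-- the bad tuples of `Y` which divide `a` -/
private theorem E1_card {T : TC.Dat} {R y0 y1 : ℕ} (hs : SetsOk3 S WA WB R y0) (hc : Cmp S WA WB) (hy : y1 ≤ y0) (hk : 1 ≤ S.k) {μ : S.TX}
    (hμ : μ ∈ S.MX) (a : ℕ) [DecidablePred fun t' => t' ∣ a ∧ BdS S T y1 (S.prX id μ) t'] :
    (((TUP (famY3 S WA WB)).filter fun t' => t' ∣ a ∧ BdS S T y1 (S.prX id μ) t').card : ℝ) ≤ ∑ p ∈ T.PS.filter (fun p => p ≤ y1),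
      ∑ I ∈ (univ : Finset (Fin (S.k + 1))).powersetCard (S.k - 1), ∑ s ∈ clsS p I,
        pht (subY3 S WA WB p I s fun i => rr p (μ.1 i) (s i)) a := by
  classical
  have h1 : (TUP (famY3 S WA WB)).filter (fun t' => t' ∣ a ∧ BdS S T y1 (S.prX id μ) t') ⊆
      (T.PS.filter (fun p => p ≤ y1)).biUnion fun p => ((univ : Finset (Fin (S.k + 1))).powersetCard (S.k - 1)).biUnion fun I =>
        (clsS p I).biUnion fun s =>
          ((Fintype.piFinset (subY3 S WA WB p I s fun i => rr p (μ.1 i) (s i))).filter fun f => ∏ c, f c ∣ a).image fun f => ∏ c, f c := by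
    intro t' ht
    rw [mem_filter] at ht
    obtain ⟨-, h3, μ', hμ', ν, hν, e1, e2, p, hp, -, hp1, hcd⟩ := ht
    have e3 := hs.injX hμ' hμ e1
    rw [e3] at hcd
    have hpp : p.Prime := by
      unfold TC.Dat.PS at hp
      exact (mem_filter.1 hp).2.1
    have h5 : S.k - 1 ≤ ((univ : Finset (Fin (S.k + 1))).filter fun i => μ.1 i ≡ ν.1 i [MOD p]).card := by
      have h6 := card_filter_add_card_filter_not (s := (univ : Finset (Fin (S.k + 1)))) (fun i => μ.1 i ≡ ν.1 i [MOD p])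
      rw [card_univ, Fintype.card_fin] at h6
      omega
    obtain ⟨I, hI, hIc⟩ := exists_subset_card_eq h5
    unfold MS.MY at hν
    rw [mem_product, mem_product, Fintype.mem_piFinset, Fintype.mem_piFinset, Fintype.mem_piFinset] at hν
    obtain ⟨g1, g2, g3⟩ := hν
    have g4 : ∀ i, ∃ x : ℕ × ℕ, x.1 ∈ WA i ∧ x.2 ∈ WB i ∧ x.1 * x.2 = ν.1 i := by
      intro i
      have h := g1 i
      rw [hc.eq i, mem_image] at h
      obtain ⟨x, hx, hx2⟩ := h
      rw [mem_product] at hx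
      exact ⟨x, hx.1, hx.2, hx2⟩
    choose ab hA hB hAB using g4
    have hpA : ∀ i, ¬ p ∣ (ab i).1 := by
      intro i h
      have h2 : (ab i).1 ∈ famY3 S WA WB (Fin.castAdd S.nY (Fin.castAdd S.n0 (Fin.castAdd (S.k + 1) i))) := by
        unfold famY3
        rw [Fin.append_left, Fin.append_left, Fin.append_left]
        exact hA i
      have h3 := hs.py _ _ h2
      have h4 : p = (ab i).1 := (Nat.prime_dvd_prime_iff_eq hpp h3.1).1 h
      have h5 := h3.2.2
      omega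
    obtain ⟨s, hs0⟩ : ∃ s : Fin (S.k + 1) → ℕ, s = fun i => if i ∈ I then (ab i).1 % p else 0 := ⟨_, rfl⟩
    have hsI : ∀ i ∈ I, s i = (ab i).1 % p := fun i hi => by rw [hs0]; simp [hi]
    have hscl : s ∈ clsS p I := by
      unfold clsS
      rw [Fintype.mem_piFinset]
      intro i
      split_ifs with hi
      · rw [hsI i hi, mem_filter, mem_range]
        refine ⟨Nat.mod_lt _ hpp.pos, fun h => hpA i ?_⟩
        exact (Nat.dvd_mod_iff dvd_rfl).1 h
      · rw [hs0]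
        simp [hi]
    refine mem_biUnion.2 ⟨p, mem_filter.2 ⟨hp, hp1⟩, mem_biUnion.2 ⟨I, mem_powersetCard.2 ⟨subset_univ _, hIc⟩, mem_biUnion.2 ⟨s, hscl, ?_⟩⟩⟩
    have hpr : ∏ c, Fin.append (Fin.append (Fin.append (fun i => (ab i).1) fun i => (ab i).2) ν.2.1) ν.2.2 c = t' := by
      rw [E1_prod, E1_prod, E1_prod, ← e2]
      unfold MS.prY
      simp only [id_eq]
      congr 2
      rw [← prod_mul_distrib]
      exact prod_congr rfl fun i _ => hAB i
    refine mem_image.2 ⟨_, mem_filter.2 ⟨E1_append (E1_append (E1_append (E1_redW hA ?_) (E1_redW hB ?_)) (Fintype.mem_piFinset.2 g2))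
      (Fintype.mem_piFinset.2 g3), ?_⟩, hpr⟩
    · intro i hi
      rw [hsI i hi]
      exact (Nat.mod_modEq _ _).symm
    · intro i hi
      rw [hsI i hi]
      refine rr_spec hpp (hpA i) ?_
      rw [hAB i]
      exact ((mem_filter.1 (hI hi)).2).symm
    · rw [hpr]
      exact h3
  have hpr : ∀ p (I : Finset (Fin (S.k + 1))) (s r : Fin (S.k + 1) → ℕ) c, ∀ q ∈ subY3 S WA WB p I s r c, q.Prime :=
    fun p I s r c q hq => (hs.py c q (subY3_sub p I s r c hq)).1
  have hdj : ∀ p (I : Finset (Fin (S.k + 1))) (s r : Fin (S.k + 1) → ℕ) c c', c ≠ c' →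
      Disjoint (subY3 S WA WB p I s r c) (subY3 S WA WB p I s r c') :=
    fun p I s r c c' hc => disjoint_of_subset_left (subY3_sub p I s r c) (disjoint_of_subset_right (subY3_sub p I s r c') (hs.dy c c' hc))
  have h2 : ((TUP (famY3 S WA WB)).filter fun t' => t' ∣ a ∧ BdS S T y1 (S.prX id μ) t').card ≤ ∑ p ∈ T.PS.filter (fun p => p ≤ y1),
      ∑ I ∈ (univ : Finset (Fin (S.k + 1))).powersetCard (S.k - 1), ∑ s ∈ clsS p I,
        ((Fintype.piFinset (subY3 S WA WB p I s fun i => rr p (μ.1 i) (s i))).filter fun f => ∏ c, f c ∣ a).card := by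
    refine (card_le_card h1).trans (card_biUnion_le.trans (sum_le_sum fun p _ => card_biUnion_le.trans (sum_le_sum fun I _ =>
      card_biUnion_le.trans (sum_le_sum fun s _ => card_image_le))))
  calc (((TUP (famY3 S WA WB)).filter fun t' => t' ∣ a ∧ BdS S T y1 (S.prX id μ) t').card : ℝ) ≤ ((∑ p ∈ T.PS.filter (fun p => p ≤ y1),
      ∑ I ∈ (univ : Finset (Fin (S.k + 1))).powersetCard (S.k - 1), ∑ s ∈ clsS p I,
        ((Fintype.piFinset (subY3 S WA WB p I s fun i => rr p (μ.1 i) (s i))).filter fun f => ∏ c, f c ∣ a).card : ℕ) : ℝ) := by exact_mod_cast h2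
    _ = _ := by
        push_cast
        refine sum_congr rfl fun p _ => sum_congr rfl fun I _ => sum_congr rfl fun s _ => ?_
        rw [pht_card (hpr p I _ _) (hdj p I _ _)]

theorem BB_le3 {P : Prm} {T : TC.Dat} {R y0 y1 J0 J1 J2 y0' : ℕ} (hs : SetsOk3 S WA WB R y0) (hc : Cmp S WA WB) (hy : y1 ≤ y0) (hk : 1 ≤ S.k)
    {μ : S.TX} (hμ : μ ∈ S.MX) (x : ZMod R) :
    BB P R (datS3 S WA WB J0 J1 J2 y0') (BdS S T y1) (S.prX id μ) x ≤ ∑ p ∈ T.PS.filter (fun p => p ≤ y1),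
      ∑ I ∈ (univ : Finset (Fin (S.k + 1))).powersetCard (S.k - 1), ∑ s ∈ clsS p I,
        PY P R (datE3 S WA WB J0 J1 J2 y0' p I s fun i => rr p (μ.1 i) (s i)) x := by
  classical
  unfold BB PY
  have h1 : ∑ p ∈ T.PS.filter (fun p => p ≤ y1), ∑ I ∈ (univ : Finset (Fin (S.k + 1))).powersetCard (S.k - 1), ∑ s ∈ clsS p I,
      ∑ i ∈ range (datE3 S WA WB J0 J1 J2 y0' p I s fun i => rr p (μ.1 i) (s i)).J0,
        ph P R (datE3 S WA WB J0 J1 J2 y0' p I s fun i => rr p (μ.1 i) (s i)).BY (x.val + i * R) =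
      ∑ i ∈ range J0, ∑ p ∈ T.PS.filter (fun p => p ≤ y1), ∑ I ∈ (univ : Finset (Fin (S.k + 1))).powersetCard (S.k - 1), ∑ s ∈ clsS p I,
        ph P R (subY3 S WA WB p I s fun i => rr p (μ.1 i) (s i)) (x.val + i * R) := by
    rw [sum_comm' (s := range J0) (t := fun _ => T.PS.filter (fun p => p ≤ y1)) (t' := T.PS.filter (fun p => p ≤ y1)) (s' := fun _ => range J0)
      (by intro a b; tauto)]
    refine sum_congr rfl fun p _ => ?_
    rw [sum_comm]
    refine sum_congr rfl fun I _ => ?_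
    rw [sum_comm]
    rfl
  rw [h1]
  refine sum_le_sum fun i _ => ?_
  by_cases hR : Rgh1 P R (x.val + i * R)
  · rw [if_pos hR]
    refine (E1_card hs hc hy hk hμ (x.val + i * R)).trans (le_of_eq ?_)
    refine sum_congr rfl fun p _ => sum_congr rfl fun I _ => sum_congr rfl fun s _ => ?_
    unfold ph
    rw [if_pos (show (x.val + i * R).Coprime R ∧ Rough (MM P R) (x.val + i * R) from hR)]
  · rw [if_neg hR]
    refine sum_nonneg fun p _ => sum_nonneg fun I _ => sum_nonneg fun s _ => ?_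
    unfold ph
    rw [if_neg (show ¬ ((x.val + i * R).Coprime R ∧ Rough (MM P R) (x.val + i * R)) from hR)]

end Pool.Agent.Lib.T3B
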