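import Pool.Agent.Lib.MP_7b7e48_nt.T3B.E1
import Pool.Agent.Lib.MP_7b7e48_nt.TCF.CDef

/-!
# Module E2: the sub-families

`rho (Fin.append A B) = rho A * rho B`. Windows: the factor is multiplied by a number in `[1/(4(p-1)), 4/(p-1)]` for `i ∈ I`. `rho_sum`: the sum over the classes `s` of the `b'_i` of the masses
is the full mass, the classes of the `b''_i` are fixed by `s`.
`famW_subY3`: as in BR.E2.
-/

set_option autoImplicit false

open Finset

namespace Pool.Agent.Lib.T3B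

open Pool.Agent.Lib.RG (Rough)
open Pool.Agent.Lib.RH (Prm MM JJ)
open Pool.Agent.Lib.TC (MS Msr)
open Pool.Agent.Lib.TCF (TUP pht rho FamOk FamW)

variable {S : MS} {WA WB : Fin (S.k + 1) → Finset ℕ}

theorem rho_append {m n : ℕ} (A : Fin m → Finset ℕ) (B : Fin n → Finset ℕ) : rho (Fin.append A B) = rho A * rho B := by
  unfold rho
  rw [Fin.prod_univ_add]
  congr 1
  · refine prod_congr rfl fun c _ => ?_
    rw [Fin.append_left]
  · refine prod_congr rfl fun c _ => ?_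
    rw [Fin.append_right]

theorem rho_nonneg {n : ℕ} (A : Fin n → Finset ℕ) : 0 ≤ rho A :=
  prod_nonneg fun _ _ => sum_nonneg fun _ _ => by positivity

theorem rho_famY3 : rho (famY3 S WA WB) = rho WA * rho WB * rho S.FY * rho S.OY := by
  unfold famY3
  rw [rho_append, rho_append, rho_append]

theorem rho_subY3_eq (p : ℕ) (I : Finset (Fin (S.k + 1))) (s r : Fin (S.k + 1) → ℕ) :
    rho (subY3 S WA WB p I s r) = rho (redW WA p I s) * rho (redW WB p I r) * rho S.FY * rho S.OY := by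
  unfold subY3
  rw [rho_append, rho_append, rho_append]

theorem PS_one {T : TC.Dat} {p : ℕ} (hp : p ∈ T.PS) : (1 : ℝ) ≤ (p : ℝ) - 1 := by
  unfold TC.Dat.PS at hp
  rw [mem_filter] at hp
  have : (2 : ℝ) ≤ p := by exact_mod_cast hp.2.1.two_le
  linarith

/-- a constant factor for the windows `i ∈ I` -/
private theorem E2_pow {k : ℕ} (I : Finset (Fin (k + 1))) (c : ℝ) : c ^ I.card = ∏ i : Fin (k + 1), if i ∈ I then c else (1 : ℝ) := by
  rw [prod_ite, prod_const, prod_const_one, mul_one]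
  congr 2
  ext i
  simp

theorem redW_lo {k : ℕ} {W : Fin (k + 1) → Finset ℕ} {p : ℕ} {I : Finset (Fin (k + 1))} {r : Fin (k + 1) → ℕ} (hp : (1 : ℝ) ≤ (p : ℝ) - 1)
    (h : ∀ i ∈ I, (∑ β ∈ W i, 1 / (β : ℝ)) / (4 * ((p : ℝ) - 1)) ≤ ∑ β ∈ (W i).filter (fun β => β ≡ r i [MOD p]), 1 / (β : ℝ)) :
    rho W * (1 / (4 * ((p : ℝ) - 1))) ^ I.card ≤ rho (redW W p I r) := by
  classical
  have hpos : (0 : ℝ) < (p : ℝ) - 1 := by linarith
  rw [E2_pow]
  unfold rho
  rw [← prod_mul_distrib]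
  refine prod_le_prod (fun i _ => mul_nonneg (sum_nonneg fun _ _ => by positivity) (by split_ifs <;> positivity)) fun i _ => ?_
  unfold redW
  by_cases hi : i ∈ I
  · simp only [if_pos hi]
    calc (∑ β ∈ W i, 1 / (β : ℝ)) * (1 / (4 * ((p : ℝ) - 1))) = (∑ β ∈ W i, 1 / (β : ℝ)) / (4 * ((p : ℝ) - 1)) := by ring
      _ ≤ _ := h i hi
  · simp only [if_neg hi, mul_one]
    exact le_rfl

theorem redW_up {k : ℕ} {W : Fin (k + 1) → Finset ℕ} {p : ℕ} {I : Finset (Fin (k + 1))} {r : Fin (k + 1) → ℕ} (hp : (1 : ℝ) ≤ (p : ℝ) - 1)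
    (h : ∀ i ∈ I, ∑ β ∈ (W i).filter (fun β => β ≡ r i [MOD p]), 1 / (β : ℝ) ≤ 4 / ((p : ℝ) - 1) * ∑ β ∈ W i, 1 / (β : ℝ)) :
    rho (redW W p I r) ≤ (4 / ((p : ℝ) - 1)) ^ I.card * rho W := by
  classical
  have hpos : (0 : ℝ) < (p : ℝ) - 1 := by linarith
  rw [E2_pow]
  unfold rho
  rw [← prod_mul_distrib]
  refine prod_le_prod (fun i _ => sum_nonneg fun _ _ => by positivity) fun i _ => ?_
  unfold redW
  by_cases hi : i ∈ I
  · simp only [if_pos hi]
    exact h i hi
  · simp only [if_neg hi, one_mul]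
    exact le_rfl

/-- the sum over the classes -/
theorem redW_sum {k : ℕ} (W : Fin (k + 1) → Finset ℕ) (p : ℕ) (I : Finset (Fin (k + 1))) :
    ∑ s ∈ clsS p I, rho (redW W p I s) ≤ rho W := by
  classical
  unfold clsS rho
  have h1 : ∀ s : Fin (k + 1) → ℕ, ∏ c, ∑ q ∈ redW W p I s c, 1 / (q : ℝ) =
      ∏ c, (fun (c : Fin (k + 1)) (j : ℕ) => if c ∈ I then ∑ q ∈ (W c).filter (fun β => β ≡ j [MOD p]), 1 / (q : ℝ) else ∑ q ∈ W c, 1 / (q : ℝ)) c (s c) := by
    intro s
    refine prod_congr rfl fun c _ => ?_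
    unfold redW
    by_cases hc : c ∈ I
    · simp only [if_pos hc]
    · simp only [if_neg hc]
  have h5 := prod_univ_sum (fun i : Fin (k + 1) => if i ∈ I then (range p).filter (fun s => ¬ p ∣ s) else {0})
    (fun (c : Fin (k + 1)) (j : ℕ) => if c ∈ I then ∑ q ∈ (W c).filter (fun β => β ≡ j [MOD p]), 1 / (q : ℝ) else ∑ q ∈ W c, 1 / (q : ℝ))
  rw [sum_congr rfl fun s _ => h1 s]
  refine (le_of_eq h5.symm).trans ?_
  refine prod_le_prod (fun c _ => sum_nonneg fun j _ => ?_) fun c _ => ?_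
  · split_ifs
    · exact sum_nonneg fun _ _ => by positivity
    · exact sum_nonneg fun _ _ => by positivity
  · by_cases hc : c ∈ I
    · simp only [if_pos hc]
      have h2 : ∀ j ∈ (range p).filter (fun s => ¬ p ∣ s), ∑ q ∈ (W c).filter (fun β => β ≡ j [MOD p]), 1 / (q : ℝ) =
          ∑ q ∈ W c, if q % p = j then 1 / (q : ℝ) else 0 := by
        intro j hj
        have h3 := mem_range.1 (mem_filter.1 hj).1
        rw [sum_filter]
        refine sum_congr rfl fun q _ => ?_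
        have h4 : q ≡ j [MOD p] ↔ q % p = j := by
          unfold Nat.ModEq
          rw [Nat.mod_eq_of_lt h3]
        simp only [h4]
      rw [sum_congr rfl h2, sum_comm]
      refine sum_le_sum fun q _ => ?_
      rw [sum_ite_eq]
      split_ifs
      · exact le_rfl
      · positivity
    · simp only [if_neg hc, sum_singleton]
      exact le_rfl

theorem rho_subY3 {T : TC.Dat} {y1 p : ℕ} (hw : WinOk3 S WA WB T y1) (hp : p ∈ T.PS) (hp1 : p ≤ y1) (I : Finset (Fin (S.k + 1)))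
    (hI : I.card = S.k - 1) (s r : Fin (S.k + 1) → ℕ) (hs : ∀ i ∈ I, ¬ p ∣ s i) (hr : ∀ i ∈ I, ¬ p ∣ r i) :
    rho (famY3 S WA WB) * ((1 / (4 * ((p : ℝ) - 1))) ^ (S.k - 1)) ^ 2 ≤ rho (subY3 S WA WB p I s r) := by
  have h1 := redW_lo (W := WA) (I := I) (r := s) (PS_one hp) fun i hi => hw.loA i p hp hp1 (s i) (hs i hi)
  have h2 := redW_lo (W := WB) (I := I) (r := r) (PS_one hp) fun i hi => hw.loB i p hp hp1 (r i) (hr i hi)
  rw [hI] at h1 h2
  rw [rho_famY3, rho_subY3_eq]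
  have hF := rho_nonneg S.FY
  have hO := rho_nonneg S.OY
  have hA := rho_nonneg WA
  have hB := rho_nonneg WB
  have hpos : (0 : ℝ) < (p : ℝ) - 1 := by linarith [PS_one hp]
  calc rho WA * rho WB * rho S.FY * rho S.OY * ((1 / (4 * ((p : ℝ) - 1))) ^ (S.k - 1)) ^ 2 =
      (rho WA * (1 / (4 * ((p : ℝ) - 1))) ^ (S.k - 1)) * (rho WB * (1 / (4 * ((p : ℝ) - 1))) ^ (S.k - 1)) * rho S.FY * rho S.OY := by ring
    _ ≤ rho (redW WA p I s) * rho (redW WB p I r) * rho S.FY * rho S.OY := by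
        have h3 : 0 ≤ rho WA * (1 / (4 * ((p : ℝ) - 1))) ^ (S.k - 1) := by positivity
        have h4 : 0 ≤ rho WB * (1 / (4 * ((p : ℝ) - 1))) ^ (S.k - 1) := by positivity
        gcongr
        exact rho_nonneg _

theorem rho_sum {T : TC.Dat} {y1 p : ℕ} (hw : WinOk3 S WA WB T y1) (hp : p ∈ T.PS) (hp1 : p ≤ y1) (I : Finset (Fin (S.k + 1)))
    (hI : I.card = S.k - 1) (r : (Fin (S.k + 1) → ℕ) → Fin (S.k + 1) → ℕ) (hr : ∀ s ∈ clsS p I, ∀ i ∈ I, ¬ p ∣ r s i) :
    ∑ s ∈ clsS p I, rho (subY3 S WA WB p I s (r s)) ≤ (4 / ((p : ℝ) - 1)) ^ (S.k - 1) * rho (famY3 S WA WB) := by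
  have hF := rho_nonneg S.FY
  have hO := rho_nonneg S.OY
  have hB := rho_nonneg WB
  have hpos : (0 : ℝ) < (p : ℝ) - 1 := by linarith [PS_one hp]
  have h1 : ∀ s ∈ clsS p I, rho (subY3 S WA WB p I s (r s)) ≤
      rho (redW WA p I s) * ((4 / ((p : ℝ) - 1)) ^ (S.k - 1) * rho WB * rho S.FY * rho S.OY) := by
    intro s hs
    have h2 := redW_up (W := WB) (I := I) (r := r s) (PS_one hp) fun i hi => hw.upB i p hp hp1 (r s i) (hr s hs i hi)
    rw [hI] at h2
    rw [rho_subY3_eq]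
    have h3 := rho_nonneg (redW WA p I s)
    calc rho (redW WA p I s) * rho (redW WB p I (r s)) * rho S.FY * rho S.OY ≤
        rho (redW WA p I s) * ((4 / ((p : ℝ) - 1)) ^ (S.k - 1) * rho WB) * rho S.FY * rho S.OY := by gcongr
      _ = _ := by ring
  calc ∑ s ∈ clsS p I, rho (subY3 S WA WB p I s (r s)) ≤
      ∑ s ∈ clsS p I, rho (redW WA p I s) * ((4 / ((p : ℝ) - 1)) ^ (S.k - 1) * rho WB * rho S.FY * rho S.OY) := sum_le_sum h1
    _ = (∑ s ∈ clsS p I, rho (redW WA p I s)) * ((4 / ((p : ℝ) - 1)) ^ (S.k - 1) * rho WB * rho S.FY * rho S.OY) := by rw [sum_mul]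
    _ ≤ rho WA * ((4 / ((p : ℝ) - 1)) ^ (S.k - 1) * rho WB * rho S.FY * rho S.OY) :=
        mul_le_mul_of_nonneg_right (redW_sum WA p I) (by positivity)
    _ = _ := by
        rw [rho_famY3]
        ring

/-- lower bound of the masses of a reduced window -/
private theorem E2_lo {R y1 p : ℕ} (hp : (1 : ℝ) ≤ (p : ℝ) - 1) (hp1 : p ≤ y1) (hK : 4 ≤ Real.log R) (hy : (y1 : ℝ) ≤ (Real.log R) ^ 2) {V : ℝ}
    (hV : 1 / (Real.log R) ^ 3 ≤ V) : 1 / (Real.log R) ^ 1000 ≤ V / (4 * ((p : ℝ) - 1)) := by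
  have hK0 : (0 : ℝ) < Real.log R := by linarith
  have hJ0 : (0 : ℝ) < (Real.log R) ^ 1000 := by positivity
  rw [le_div_iff₀ (by linarith)]
  refine le_trans ?_ hV
  have h6 : 4 * ((p : ℝ) - 1) ≤ (Real.log R) ^ 3 := by
    have h7 : (p : ℝ) ≤ y1 := by exact_mod_cast hp1
    have h8 : 4 * (Real.log R) ^ 2 ≤ (Real.log R) ^ 3 := by
      rw [pow_succ (Real.log R) 2, mul_comm]
      exact mul_le_mul_of_nonneg_left hK (by positivity)
    linarith
  calc 1 / (Real.log R) ^ 1000 * (4 * ((p : ℝ) - 1)) ≤ 1 / (Real.log R) ^ 1000 * (Real.log R) ^ 3 := by gcongr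
    _ = 1 / (Real.log R) ^ 997 := by
        rw [show (1000 : ℕ) = 997 + 3 from rfl, pow_add]
        field_simp
    _ ≤ 1 / (Real.log R) ^ 3 := one_div_le_one_div_of_le (by positivity) (pow_le_pow_right₀ (by linarith) (by norm_num))

theorem famW_subY3 {P : Prm} {T : TC.Dat} {R y0 y1 p : ℕ} (hF : FamOk P R y0 (famY3 S WA WB)) (hw : WinOk3 S WA WB T y1) (hp : p ∈ T.PS)
    (hp1 : p ≤ y1) (hK : 4 ≤ Real.log R) (hy : (y1 : ℝ) ≤ (Real.log R) ^ 2) (I : Finset (Fin (S.k + 1))) (s r : Fin (S.k + 1) → ℕ)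
    (hs : ∀ i ∈ I, ¬ p ∣ s i) (hr : ∀ i ∈ I, ¬ p ∣ r i) : FamW P R y0 (subY3 S WA WB p I s r) := by
  classical
  have hsub := subY3_sub (S := S) (WA := WA) (WB := WB) p I s r
  have hK0 : (0 : ℝ) < Real.log R := by linarith
  have hJ : (Real.log R) ^ 1000 ≤ (JJ R : ℝ) := Nat.le_ceil _
  have hJ0 : (0 : ℝ) < (Real.log R) ^ 1000 := by positivity
  have hle : ∀ c, ∑ q ∈ subY3 S WA WB p I s r c, 1 / (q : ℝ) ≤ ∑ q ∈ famY3 S WA WB c, 1 / (q : ℝ) := fun c =>
    sum_le_sum_of_subset_of_nonneg (hsub c) fun _ _ _ => by positivity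
  have h3 : 1 / (JJ R : ℝ) ≤ 1 / (Real.log R) ^ 1000 := one_div_le_one_div_of_le hJ0 hJ
  have h4 : 1 / (Real.log R) ^ 1000 ≤ 1 / (Real.log R) ^ 3 :=
    one_div_le_one_div_of_le (by positivity) (pow_le_pow_right₀ (by linarith) (by norm_num))
  refine ⟨fun c q hq => hF.pr c q (hsub c hq), fun c c' hc => disjoint_of_subset_left (hsub c) (disjoint_of_subset_right (hsub c') (hF.disj c c' hc)),
    ?_, fun c => (hle c).trans (hF.up c), ?_, hF.nle, ?_⟩
  · intro c
    refine Fin.addCases (fun c => ?_) (fun c => ?_) c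
    · refine Fin.addCases (fun c => ?_) (fun c => ?_) c
      · refine Fin.addCases (fun c => ?_) (fun c => ?_) c
        · have h6 := hF.lo (Fin.castAdd S.nY (Fin.castAdd S.n0 (Fin.castAdd (S.k + 1) c)))
          unfold famY3 at h6
          rw [Fin.append_left, Fin.append_left, Fin.append_left] at h6
          unfold subY3
          rw [Fin.append_left, Fin.append_left, Fin.append_left]
          unfold redW
          by_cases hc : c ∈ I
          · simp only [if_pos hc]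
            exact h3.trans ((E2_lo (PS_one hp) hp1 hK hy h6).trans (hw.loA c p hp hp1 (s c) (hs c hc)))
          · simp only [if_neg hc]
            exact h3.trans (h4.trans h6)
        · have h6 := hF.lo (Fin.castAdd S.nY (Fin.castAdd S.n0 (Fin.natAdd (S.k + 1) c)))
          unfold famY3 at h6
          rw [Fin.append_left, Fin.append_left, Fin.append_right] at h6
          unfold subY3
          rw [Fin.append_left, Fin.append_left, Fin.append_right]
          unfold redW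
          by_cases hc : c ∈ I
          · simp only [if_pos hc]
            exact h3.trans ((E2_lo (PS_one hp) hp1 hK hy h6).trans (hw.loB c p hp hp1 (r c) (hr c hc)))
          · simp only [if_neg hc]
            exact h3.trans (h4.trans h6)
      · have h6 := hF.lo (Fin.castAdd S.nY (Fin.natAdd (S.k + 1 + (S.k + 1)) c))
        unfold famY3 at h6
        rw [Fin.append_left, Fin.append_right] at h6
        unfold subY3
        rw [Fin.append_left, Fin.append_right]
        exact h3.trans (h4.trans h6)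
    · have h6 := hF.lo (Fin.natAdd (S.k + 1 + (S.k + 1) + S.n0) c)
      unfold famY3 at h6
      rw [Fin.append_right] at h6
      unfold subY3
      rw [Fin.append_right]
      exact h3.trans (h4.trans h6)
  · refine le_trans (prod_le_prod (fun c _ => ?_) fun c _ => ?_) hF.tot
    · have : 0 ≤ ∑ q ∈ subY3 S WA WB p I s r c, 1 / (q : ℝ) := sum_nonneg fun _ _ => by positivity
      linarith
    · have := hle c
      linarith
  · intro m hm
    refine hF.tup m ?_
    unfold TUP at hm ⊢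
    rw [mem_image] at hm ⊢
    obtain ⟨f, hf, rfl⟩ := hm
    refine ⟨f, ?_, rfl⟩
    rw [Fintype.mem_piFinset] at hf ⊢
    exact fun c => hsub c (hf c)

end Pool.Agent.Lib.T3B
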