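import Pool.Agent.Lib.MP_7b7e48_nt.T3B.E2
import Pool.Agent.Lib.MP_7b7e48_nt.TCF.CB2U
import Pool.Agent.Lib.MP_7b7e48_nt.BR.D04

/-!
# Module E3: the field `bs` for composite windows of `Y`

As BR.E3, with the families `subY3 p I s r`: the number of the exceptional quadruples `(p, I, s, r)` is `≤ y1 2^(k+1) y1^(2(k+1))`, and `rho (subY3 ..) ≥ rho (famY3 ..) (1/(4 y1))^(2(k-1))`.
-/

set_option autoImplicit false

open Finset

namespace Pool.Agent.Lib.T3B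

open Pool.Agent.Lib.RG (Rough)
open Pool.Agent.Lib.RH (Prm MM JJ)
open Pool.Agent.Lib.TC (MS Msr)
open Pool.Agent.Lib.TCF (TUP pht rho ph Mul TM NL NLt wt len Rgh1 VM PY BB)
open Pool.Agent.Lib.TCB (famX jX jX_mem BdS mem_TUPX num_sum wt_le)

variable {S : MS} {WA WB : Fin (S.k + 1) → Finset ℕ}

private theorem E3_union {ι : Type*} (A : Finset ℕ) (w : ℕ → ℝ) (hw : ∀ n ∈ A, 0 ≤ w n) (T : Finset ι) (E : ι → ℕ → Prop)
    (Q : ℕ → Prop) [i1 : DecidablePred Q] [i2 : ∀ i, DecidablePred (E i)] (c : ℝ)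
    (hQ : ∀ n ∈ A, Q n → ∃ i ∈ T, E i n) (hb : ∀ i ∈ T, ∑ n ∈ A.filter (E i), w n ≤ c) :
    ∑ n ∈ A.filter Q, w n ≤ T.card * c := by
  have h1 : ∀ n ∈ A, (if Q n then w n else 0) ≤ ∑ i ∈ T, if E i n then w n else 0 := by
    intro n hn
    have h0 : ∀ i ∈ T, 0 ≤ (if E i n then w n else 0) := fun i _ => by
      split_ifs
      · exact hw n hn
      · exact le_rfl
    by_cases h : Q n
    · rw [if_pos h]
      obtain ⟨i, hi, hE⟩ := hQ n hn h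
      refine le_trans ?_ (single_le_sum h0 hi)
      rw [if_pos hE]
    · rw [if_neg h]
      exact sum_nonneg h0
  rw [sum_filter]
  refine (sum_le_sum h1).trans ?_
  rw [sum_comm, ← nsmul_eq_mul]
  refine sum_le_card_nsmul _ _ _ fun i hi => ?_
  rw [← sum_filter]
  exact hb i hi

private theorem E3_cnt (k y1 : ℕ) (hk : 1 ≤ k) :
    y1 * (2 ^ (k + 1) * (y1 ^ (k + 1) * y1 ^ (k + 1))) * ((4 * y1) ^ (k - 1)) ^ 2 ≤ (4 * y1) ^ (4 * k + 4) := by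
  rcases Nat.eq_zero_or_pos y1 with h | h
  · rw [h]
    simp
  · have h1 : y1 * (2 ^ (k + 1) * (y1 ^ (k + 1) * y1 ^ (k + 1))) ≤ (4 * y1) ^ (2 * k + 6) := by
      calc y1 * (2 ^ (k + 1) * (y1 ^ (k + 1) * y1 ^ (k + 1))) = 2 ^ (k + 1) * y1 ^ (2 * k + 3) := by ring
        _ ≤ 4 ^ (2 * k + 6) * y1 ^ (2 * k + 6) := by
            refine Nat.mul_le_mul ?_ (Nat.pow_le_pow_right h (by omega))
            exact (Nat.pow_le_pow_left (by norm_num) _).trans (Nat.pow_le_pow_right (by norm_num) (by omega))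
        _ = (4 * y1) ^ (2 * k + 6) := by rw [mul_pow]
    calc y1 * (2 ^ (k + 1) * (y1 ^ (k + 1) * y1 ^ (k + 1))) * ((4 * y1) ^ (k - 1)) ^ 2 ≤ (4 * y1) ^ (2 * k + 6) * ((4 * y1) ^ (k - 1)) ^ 2 :=
          Nat.mul_le_mul_right _ h1
      _ = (4 * y1) ^ (4 * k + 4) := by
          rw [← pow_mul, ← pow_add]
          congr 1
          omega

private theorem E3_VM (P : Prm) (R : ℕ) : 0 ≤ VM P R := by
  unfold TCF.VM
  refine prod_nonneg fun p hp => ?_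
  have h1 : 1 / (p : ℝ) ≤ 1 := by
    rcases Nat.eq_zero_or_pos p with h | h
    · rw [h]
      norm_num
    · rw [div_le_one (by exact_mod_cast h)]
      exact_mod_cast h
  linarith

/-- some sub-family is exceptional -/
private theorem E3_exists {P : Prm} {R : ℕ} {T : TC.Dat} {y1 J0 J1 J2 : ℕ} (hs : SetsOk3 S WA WB R T.y0) (hc : Cmp S WA WB)
    (hw : WinOk3 S WA WB T y1) (hy : y1 ≤ T.y0) (hk : 5 ≤ S.k) (hp0 : 64 * (S.k + 1) ^ 2 + 64 ≤ T.p0) (hr0 : 0 ≤ rho (famY3 S WA WB))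
    (x : ZMod R) {t : ℕ} (ht : t ∈ TUP (famX S))
    (hb : 1 / 80 * (VM P R * J0 * rho (famY3 S WA WB)) < BB P R (datS3 S WA WB J0 J1 J2 T.y0) (BdS S T y1) t x) :
    ∃ p ∈ T.PS.filter (fun p => p ≤ y1), ∃ I ∈ (univ : Finset (Fin (S.k + 1))).powersetCard (S.k - 1),
      ∃ s r : Fin (S.k + 1) → ℕ, (∀ i, s i < p ∧ r i < p) ∧ (∀ i ∈ I, ¬ p ∣ s i ∧ ¬ p ∣ r i) ∧
        3 * (J0 * VM P R * rho (subY3 S WA WB p I s r)) < PY P R (datE3 S WA WB J0 J1 J2 T.y0 p I s r) x := by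
  classical
  obtain ⟨μ, hμ, rfl⟩ := mem_TUPX.1 ht
  have hB := BB_le3 (P := P) (J0 := J0) (J1 := J1) (J2 := J2) (y0' := T.y0) (T := T) (y1 := y1) hs hc hy (by omega) hμ x
  -- residues
  have hmu : ∀ p ∈ T.PS.filter (fun p => p ≤ y1), p.Prime ∧ ∀ i, ¬ p ∣ μ.1 i := by
    intro p hp
    rw [mem_filter] at hp
    have hpp : p.Prime ∧ T.p0 ≤ p := by
      have h := hp.1
      unfold TC.Dat.PS at h
      exact (mem_filter.1 h).2
    refine ⟨hpp.1, fun i h1 => ?_⟩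
    have h2 : μ.1 i ∈ famX S (Fin.castAdd S.nX (Fin.castAdd S.n0 i)) := by
      have h3 := Fintype.mem_piFinset.1 (jX_mem hμ) (Fin.castAdd S.nX (Fin.castAdd S.n0 i))
      unfold jX at h3
      rwa [Fin.append_left, Fin.append_left] at h3
    have h3 := hs.px _ _ h2
    have h4 : p = μ.1 i := (Nat.prime_dvd_prime_iff_eq hpp.1 h3.1).1 h1
    have h5 := h3.2.2
    omega
  have hcls : ∀ p ∈ T.PS.filter (fun p => p ≤ y1), ∀ I : Finset (Fin (S.k + 1)), ∀ s ∈ clsS p I, (∀ i, s i < p) ∧ ∀ i ∈ I, ¬ p ∣ s i := by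
    intro p hp I s hs'
    have hpp := (hmu p hp).1
    unfold clsS at hs'
    rw [Fintype.mem_piFinset] at hs'
    constructor
    · intro i
      have h := hs' i
      by_cases hi : i ∈ I
      · rw [if_pos hi, mem_filter, mem_range] at h
        exact h.1
      · rw [if_neg hi, mem_singleton] at h
        rw [h]
        exact hpp.pos
    · intro i hi
      have h := hs' i
      rw [if_pos hi, mem_filter, mem_range] at h
      exact h.2
  by_contra hcon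
  push Not at hcon
  have hV := E3_VM P R
  have hX : 0 ≤ (J0 : ℝ) * VM P R := by positivity
  have h1 : ∀ p ∈ T.PS.filter (fun p => p ≤ y1), ∀ I ∈ (univ : Finset (Fin (S.k + 1))).powersetCard (S.k - 1),
      ∑ s ∈ clsS p I, PY P R (datE3 S WA WB J0 J1 J2 T.y0 p I s fun i => rr p (μ.1 i) (s i)) x ≤
        3 * (4 / ((p : ℝ) - 1)) ^ (S.k - 1) * (J0 * VM P R * rho (famY3 S WA WB)) := by
    intro p hp I hI
    have hpp := (hmu p hp).1
    have hp' := mem_filter.1 hp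
    have h2 : ∀ s ∈ clsS p I, PY P R (datE3 S WA WB J0 J1 J2 T.y0 p I s fun i => rr p (μ.1 i) (s i)) x ≤
        3 * (J0 * VM P R * rho (subY3 S WA WB p I s fun i => rr p (μ.1 i) (s i))) := by
      intro s hs'
      obtain ⟨g1, g2⟩ := hcls p hp I s hs'
      exact hcon p hp I hI s (fun i => rr p (μ.1 i) (s i)) (fun i => ⟨g1 i, rr_lt hpp _ _⟩)
        fun i hi => ⟨g2 i hi, rr_not_dvd hpp ((hmu p hp).2 i) (g2 i hi)⟩
    refine (sum_le_sum h2).trans ?_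
    have h3 := rho_sum hw hp'.1 hp'.2 I (mem_powersetCard.1 hI).2 (fun s i => rr p (μ.1 i) (s i)) fun s hs' i hi =>
      rr_not_dvd hpp ((hmu p hp).2 i) ((hcls p hp I s hs').2 i hi)
    calc ∑ s ∈ clsS p I, 3 * (J0 * VM P R * rho (subY3 S WA WB p I s fun i => rr p (μ.1 i) (s i))) =
        3 * (J0 * VM P R * ∑ s ∈ clsS p I, rho (subY3 S WA WB p I s fun i => rr p (μ.1 i) (s i))) := by
          rw [mul_sum, mul_sum]
      _ ≤ 3 * (J0 * VM P R * ((4 / ((p : ℝ) - 1)) ^ (S.k - 1) * rho (famY3 S WA WB))) :=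
          mul_le_mul_of_nonneg_left (mul_le_mul_of_nonneg_left h3 hX) (by norm_num)
      _ = _ := by ring
  have h2 : BB P R (datS3 S WA WB J0 J1 J2 T.y0) (BdS S T y1) (S.prX id μ) x ≤ 1 / 80 * (VM P R * J0 * rho (famY3 S WA WB)) := by
    calc BB P R (datS3 S WA WB J0 J1 J2 T.y0) (BdS S T y1) (S.prX id μ) x ≤ ∑ p ∈ T.PS.filter (fun p => p ≤ y1),
        ∑ I ∈ (univ : Finset (Fin (S.k + 1))).powersetCard (S.k - 1), ∑ s ∈ clsS p I,
          PY P R (datE3 S WA WB J0 J1 J2 T.y0 p I s fun i => rr p (μ.1 i) (s i)) x := hB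
      _ ≤ ∑ p ∈ T.PS.filter (fun p => p ≤ y1), ∑ I ∈ (univ : Finset (Fin (S.k + 1))).powersetCard (S.k - 1),
          3 * (4 / ((p : ℝ) - 1)) ^ (S.k - 1) * (J0 * VM P R * rho (famY3 S WA WB)) :=
          sum_le_sum fun p hp => sum_le_sum fun I hI => h1 p hp I hI
      _ = (∑ p ∈ T.PS.filter (fun p => p ≤ y1), (((S.k + 1).choose (S.k - 1) : ℕ) : ℝ) * (3 * (4 / ((p : ℝ) - 1)) ^ (S.k - 1))) *
          (J0 * VM P R * rho (famY3 S WA WB)) := by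
          rw [sum_mul]
          refine sum_congr rfl fun p _ => ?_
          rw [sum_const, card_powersetCard, card_univ, Fintype.card_fin, nsmul_eq_mul]
          ring
      _ ≤ 1 / 80 * (J0 * VM P R * rho (famY3 S WA WB)) :=
          mul_le_mul_of_nonneg_right (num_sum T S.k y1 hk hp0) (mul_nonneg hX hr0)
      _ = _ := by ring
  exact absurd hb (not_lt.2 h2)

open Classical in
private theorem E3_core (P : Prm) (hP : P.Ok) :
    ∃ N0 : ℕ, ∀ (R : ℕ) (S : MS) (WA WB : Fin (S.k + 1) → Finset ℕ) (T : TC.Dat) (y1 J0 J1 J2 : ℕ), N0 ≤ R → (datS3 S WA WB J0 J1 J2 T.y0).Ok P R →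
    Cmp S WA WB → WinOk3 S WA WB T y1 → y1 ≤ T.y0 → (y1 : ℝ) ≤ (Real.log (R : ℝ)) ^ 2 → 5 ≤ S.k → 64 * (S.k + 1) ^ 2 + 64 ≤ T.p0 →
    ((JJ R : ℕ) : ℝ) ^ 3 * (4 * y1) ^ (4 * S.k + 4) ≤ J0 * rho (famY3 S WA WB) →
    ∀ (v : ℕ) (o : Option (ℕ → ℝ)) (L : ℝ), TM P R v o L → ∀ a b : ℕ, a ≤ b → v * b ≤ J1 * R →
    ((v = 1 ∧ o = none) ∨ J2 * R < v * (a + 1)) →
    ∑ n ∈ (Ioc a b).filter (fun n => n.Coprime R ∧ ∃ t ∈ TUP (famX S),
      1 / 80 * (VM P R * J0 * rho (famY3 S WA WB)) <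
        BB P R (datS3 S WA WB J0 J1 J2 T.y0) (BdS S T y1) t ((v * n : ℕ) : ZMod R)), wt T.y0 o n ≤
      L / JJ R * len P R v a b := by
  obtain ⟨N1, h2U⟩ := TCF.cb2U P hP
  obtain ⟨N2, hnum⟩ := RH.num P hP
  refine ⟨N1 + N2 + 1, fun R S WA WB T y1 J0 J1 J2 hN hok hc hw hy hyl hk hp0 hJ v o L hT a b hab hvb hcase => ?_⟩
  haveI : NeZero R := ⟨by omega⟩
  have hnm := hnum R (by omega)
  have hKK := hnm.K
  have hK : 4 ≤ Real.log R := by
    have h1 : (4 : ℝ) ≤ 10 ^ 9 := by norm_num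
    linarith
  have hJJr : (2 : ℝ) ≤ JJ R := by
    have h1 := hnm.J1
    have h2 : (Real.log R) ^ 1 ≤ (Real.log R) ^ 1000 := pow_le_pow_right₀ (by linarith) (by norm_num)
    rw [pow_one] at h2
    linarith
  have hJJ : 2 ≤ JJ R := by exact_mod_cast hJJr
  have hMM : 1 ≤ MM P R := by
    unfold MM
    exact Nat.one_le_two_pow
  have o1 : JJ R ^ 4 * MM P R ^ 4 * J1 ≤ T.y0 := hok.y1
  have o2 : 0 < J0 := hok.j0
  have o3 : 8 * JJ R * MM P R ^ 2 * J0 ≤ J2 := hok.j02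
  have o4 : JJ R * J2 ≤ J1 := hok.j21
  have o5 : (JJ R : ℝ) ^ 3 ≤ J0 * rho (famY3 S WA WB) := hok.jy
  have o6 : (T.y0 : ℝ) ≤ (R : ℝ) ^ (P.kap / 1000) := hok.y2
  have hs : SetsOk3 S WA WB R T.y0 := sets_of_ok3 hok
  have q1 : J0 < J2 := by
    have h1 : 8 * J0 ≤ 8 * JJ R * MM P R ^ 2 * J0 := by
      refine Nat.mul_le_mul_right _ ?_
      calc 8 = 8 * 1 * 1 ^ 2 := by norm_num
        _ ≤ 8 * JJ R * MM P R ^ 2 :=
          Nat.mul_le_mul (Nat.mul_le_mul_left _ (by omega)) (Nat.pow_le_pow_left hMM 2)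
    omega
  have q2 : J2 ≤ J1 := (Nat.le_mul_of_pos_left J2 (by omega)).trans o4
  have hJ1 : 0 < J1 := by omega
  have q3 : JJ R ^ 4 ≤ T.y0 := by
    refine le_trans ?_ o1
    calc JJ R ^ 4 = JJ R ^ 4 * 1 * 1 := by ring
      _ ≤ JJ R ^ 4 * MM P R ^ 4 * J1 :=
        Nat.mul_le_mul (Nat.mul_le_mul_left _ (Nat.one_le_pow _ _ hMM)) hJ1
  have q4 : MM P R ≤ T.y0 := by
    refine le_trans ?_ o1
    calc MM P R = 1 * MM P R * 1 := by ring
      _ ≤ JJ R ^ 4 * MM P R ^ 4 * J1 :=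
        Nat.mul_le_mul (Nat.mul_le_mul (Nat.one_le_pow _ _ (by omega)) (Nat.le_self_pow (by norm_num) _)) hJ1
  have q5 : 2 * J1 ≤ T.y0 := by
    refine le_trans ?_ o1
    refine Nat.mul_le_mul_right _ ?_
    calc 2 = 2 * 1 := by norm_num
      _ ≤ JJ R ^ 4 * MM P R ^ 4 :=
        Nat.mul_le_mul (hJJ.trans (Nat.le_self_pow (by norm_num) _)) (Nat.one_le_pow _ _ hMM)
  have hX0 : 0 < (J0 : ℝ) * rho (famY3 S WA WB) := lt_of_lt_of_le (by positivity) o5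
  have hJ0r : (0 : ℝ) < J0 := by exact_mod_cast o2
  have hr0 : 0 < rho (famY3 S WA WB) := by
    by_contra h
    push Not at h
    have := mul_nonpos_of_nonneg_of_nonpos hJ0r.le h
    linarith
  have hv1 := hT.v1
  have hv0 : (0 : ℝ) < v := by exact_mod_cast hv1
  have hL0 : 0 ≤ L := by
    rcases hT.ty with ⟨-, h, -⟩ | ⟨c, -, -, h, -⟩
    · rw [h]
      exact zero_le_one
    · exact h.1
  have hlen : 0 ≤ len P R v a b := by
    unfold TCF.len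
    have h1 : (a : ℝ) ≤ b := by exact_mod_cast hab
    have h2 : (0 : ℝ) ≤ (R : ℝ) ^ (1 - P.kap / 8) / v := by positivity
    linarith
  obtain ⟨Z, hZ⟩ : ∃ Z : ℝ, Z = L * len P R v a b := ⟨_, rfl⟩
  have hZ0 : 0 ≤ Z := by
    rw [hZ]
    exact mul_nonneg hL0 hlen
  -- the quadruples
  obtain ⟨F, hF⟩ : ∃ F : Finset (Fin (S.k + 1) → ℕ), F = Fintype.piFinset fun _ : Fin (S.k + 1) => range y1 := ⟨_, rfl⟩
  obtain ⟨TT, hTT⟩ : ∃ TT : Finset (ℕ × Finset (Fin (S.k + 1)) × (Fin (S.k + 1) → ℕ) × (Fin (S.k + 1) → ℕ)), TT =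
      (T.PS.filter (fun p => p ≤ y1) ×ˢ ((univ : Finset (Fin (S.k + 1))).powersetCard (S.k - 1) ×ˢ (F ×ˢ F))).filter
        (fun x => ∀ i ∈ x.2.1, ¬ x.1 ∣ x.2.2.1 i ∧ ¬ x.1 ∣ x.2.2.2 i) := ⟨_, rfl⟩
  have hcard : TT.card ≤ y1 * (2 ^ (S.k + 1) * (y1 ^ (S.k + 1) * y1 ^ (S.k + 1))) := by
    rw [hTT]
    refine (card_filter_le _ _).trans ?_
    rw [card_product, card_product, card_product]
    have hFc : F.card = y1 ^ (S.k + 1) := by
      rw [hF, Fintype.card_piFinset, prod_const, card_range, card_univ, Fintype.card_fin]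
    rw [hFc]
    refine Nat.mul_le_mul ?_ (Nat.mul_le_mul ?_ le_rfl)
    · have h1 : T.PS.filter (fun p => p ≤ y1) ⊆ Ioc 0 y1 := by
        intro p hp
        rw [mem_filter] at hp
        have h := hp.1
        unfold TC.Dat.PS at h
        exact mem_Ioc.2 ⟨(mem_filter.1 h).2.1.pos, hp.2⟩
      refine (card_le_card h1).trans ?_
      rw [Nat.card_Ioc, Nat.sub_zero]
    · rw [card_powersetCard, card_univ, Fintype.card_fin]
      exact Nat.choose_le_two_pow _ _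
  obtain ⟨c, hcc⟩ : ∃ c : ℝ, c = (JJ R : ℝ) ^ 2 * ((4 * y1) ^ (S.k - 1)) ^ 2 / (J0 * rho (famY3 S WA WB)) * Z := ⟨_, rfl⟩
  have hmain : ∑ n ∈ (Ioc a b).filter (fun n => n.Coprime R ∧ ∃ t ∈ TUP (famX S),
      1 / 80 * (VM P R * J0 * rho (famY3 S WA WB)) <
        BB P R (datS3 S WA WB J0 J1 J2 T.y0) (BdS S T y1) t ((v * n : ℕ) : ZMod R)), wt T.y0 o n ≤ TT.card * c := by
    refine E3_union (Ioc a b) (wt T.y0 o) (fun n hn => ?_) TT
      (fun x n => n.Coprime R ∧ 3 * (J0 * VM P R * rho (subY3 S WA WB x.1 x.2.1 x.2.2.1 x.2.2.2)) <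
        PY P R (datE3 S WA WB J0 J1 J2 T.y0 x.1 x.2.1 x.2.2.1 x.2.2.2) ((v * n : ℕ) : ZMod R)) _ c (fun n _ hn => ?_) (fun x hx => ?_)
    · rw [mem_Ioc] at hn
      exact (wt_le hT (by omega)).1
    · obtain ⟨hc1, t, ht, hb⟩ := hn
      obtain ⟨p, hp, I, hI, s, r, hsr, hr, h3⟩ := E3_exists hs hc hw hy hk hp0 hr0.le _ ht hb
      refine ⟨(p, I, s, r), ?_, hc1, h3⟩
      rw [hTT, mem_filter, mem_product, mem_product, mem_product]
      refine ⟨⟨hp, hI, ?_, ?_⟩, hr⟩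
      · rw [hF, Fintype.mem_piFinset]
        intro i
        rw [mem_range]
        exact lt_of_lt_of_le (hsr i).1 (mem_filter.1 hp).2
      · rw [hF, Fintype.mem_piFinset]
        intro i
        rw [mem_range]
        exact lt_of_lt_of_le (hsr i).2 (mem_filter.1 hp).2
    · rw [hTT, mem_filter, mem_product, mem_product, mem_product] at hx
      obtain ⟨⟨hp, hI, -, -⟩, hr⟩ := hx
      obtain ⟨p, I, s, r⟩ := x
      have hp' := mem_filter.1 hp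
      have hpp : p.Prime := by
        have h := hp'.1
        unfold TC.Dat.PS at h
        exact (mem_filter.1 h).2.1
      have hp1 : (1 : ℝ) < p := by exact_mod_cast hpp.one_lt
      have hpy : (p : ℝ) ≤ y1 := by exact_mod_cast hp'.2
      have hIc := (mem_powersetCard.1 hI).2
      have hss : ∀ i ∈ I, ¬ p ∣ s i := fun i hi => (hr i hi).1
      have hrr : ∀ i ∈ I, ¬ p ∣ r i := fun i hi => (hr i hi).2
      have h1 := rho_subY3 hw hp'.1 hp'.2 I hIc s r hss hrr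
      have hy0 : (0 : ℝ) < 4 * y1 := by linarith
      have h2 : 1 / (4 * (y1 : ℝ)) ≤ 1 / (4 * ((p : ℝ) - 1)) := by
        refine one_div_le_one_div_of_le (by linarith) ?_
        linarith
      have h20 : 0 < 1 / (4 * (y1 : ℝ)) := by positivity
      have h3 : rho (famY3 S WA WB) * ((1 / (4 * (y1 : ℝ))) ^ (S.k - 1)) ^ 2 ≤ rho (subY3 S WA WB p I s r) := by
        refine le_trans ?_ h1
        refine mul_le_mul_of_nonneg_left (pow_le_pow_left₀ (by positivity) (pow_le_pow_left₀ h20.le h2 _) _) hr0.le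
      have h5 : (0 : ℝ) < ((4 * y1) ^ (S.k - 1)) ^ 2 := by positivity
      have h4 : (J0 : ℝ) * rho (famY3 S WA WB) ≤ J0 * rho (subY3 S WA WB p I s r) * ((4 * y1) ^ (S.k - 1)) ^ 2 := by
        have h6 : rho (famY3 S WA WB) ≤ rho (subY3 S WA WB p I s r) * ((4 * y1) ^ (S.k - 1)) ^ 2 := by
          rw [one_div, inv_pow, inv_pow, ← div_eq_mul_inv, div_le_iff₀ h5] at h3
          exact h3
        calc (J0 : ℝ) * rho (famY3 S WA WB) ≤ J0 * (rho (subY3 S WA WB p I s r) * ((4 * y1) ^ (S.k - 1)) ^ 2) :=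
              mul_le_mul_of_nonneg_left h6 hJ0r.le
          _ = _ := by ring
      have h6 : 0 < (J0 : ℝ) * rho (subY3 S WA WB p I s r) := by
        by_contra h
        push Not at h
        have := mul_nonpos_of_nonpos_of_nonneg h h5.le
        linarith
      have h9 : (1 : ℝ) ≤ 4 * y1 := by linarith
      have h7 : (JJ R : ℝ) ^ 3 ≤ J0 * rho (subY3 S WA WB p I s r) := by
        have h8 : (JJ R : ℝ) ^ 3 * (4 * y1) ^ (4 * S.k + 4) ≤ J0 * rho (subY3 S WA WB p I s r) * ((4 * y1) ^ (S.k - 1)) ^ 2 := hJ.trans h4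
        have h10 : (JJ R : ℝ) ^ 3 * ((4 * y1) ^ (S.k - 1)) ^ 2 ≤ (JJ R : ℝ) ^ 3 * (4 * y1) ^ (4 * S.k + 4) := by
          rw [← pow_mul]
          exact mul_le_mul_of_nonneg_left (pow_le_pow_right₀ h9 (by omega)) (by positivity)
        exact le_of_mul_le_mul_right (h10.trans h8) h5
      have h8 := h2U R (by omega) (datE3 S WA WB J0 J1 J2 T.y0 p I s r)
        (famW_subY3 hok.fy hw hp'.1 hp'.2 hK hyl I s r hss hrr) q3 q4 o6 h7 q1 (by
          change J0 ≤ J1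
          omega) q5 v o L hT a b hab hvb hcase
      have h9 : (JJ R : ℝ) ^ 2 / (J0 * rho (subY3 S WA WB p I s r)) * (L * len P R v a b) ≤ c := by
        rw [hcc, ← hZ]
        refine mul_le_mul_of_nonneg_right ?_ hZ0
        rw [div_le_div_iff₀ h6 hX0]
        calc (JJ R : ℝ) ^ 2 * (J0 * rho (famY3 S WA WB)) ≤ (JJ R : ℝ) ^ 2 * (J0 * rho (subY3 S WA WB p I s r) * ((4 * y1) ^ (S.k - 1)) ^ 2) :=
              mul_le_mul_of_nonneg_left h4 (by positivity)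
          _ = _ := by ring
      exact h8.trans h9
  refine hmain.trans ?_
  have hc0 : (0 : ℝ) ≤ (JJ R : ℝ) ^ 2 / (J0 * rho (famY3 S WA WB)) * Z := by positivity
  have e1 : (TT.card : ℝ) * ((4 * y1) ^ (S.k - 1)) ^ 2 ≤ (4 * y1) ^ (4 * S.k + 4) := by
    have h1 : TT.card * ((4 * y1) ^ (S.k - 1)) ^ 2 ≤ (4 * y1) ^ (4 * S.k + 4) :=
      (Nat.mul_le_mul_right _ hcard).trans (E3_cnt S.k y1 (by omega))
    exact_mod_cast h1
  have e2 : (TT.card : ℝ) * c ≤ (JJ R : ℝ) ^ 2 / (J0 * rho (famY3 S WA WB)) * Z * (4 * y1) ^ (4 * S.k + 4) := by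
    calc (TT.card : ℝ) * c = (JJ R : ℝ) ^ 2 / (J0 * rho (famY3 S WA WB)) * Z * ((TT.card : ℝ) * ((4 * y1) ^ (S.k - 1)) ^ 2) := by
          rw [hcc]
          ring
      _ ≤ _ := mul_le_mul_of_nonneg_left e1 hc0
  refine e2.trans ?_
  have hJp : (0 : ℝ) < JJ R := by linarith
  have e3 : (JJ R : ℝ) ^ 2 * (4 * y1) ^ (4 * S.k + 4) / (J0 * rho (famY3 S WA WB)) ≤ 1 / JJ R := by
    rw [div_le_div_iff₀ hX0 hJp]
    calc (JJ R : ℝ) ^ 2 * (4 * y1) ^ (4 * S.k + 4) * JJ R = (JJ R : ℝ) ^ 3 * (4 * y1) ^ (4 * S.k + 4) := by ring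
      _ ≤ J0 * rho (famY3 S WA WB) := hJ
      _ = 1 * (J0 * rho (famY3 S WA WB)) := (one_mul _).symm
  calc (JJ R : ℝ) ^ 2 / (J0 * rho (famY3 S WA WB)) * Z * (4 * y1) ^ (4 * S.k + 4) =
      (JJ R : ℝ) ^ 2 * (4 * y1) ^ (4 * S.k + 4) / (J0 * rho (famY3 S WA WB)) * Z := by ring
    _ ≤ 1 / JJ R * Z := mul_le_mul_of_nonneg_right e3 hZ0
    _ = L / JJ R * len P R v a b := by
        rw [hZ]
        ring

open Classical in
theorem bs_thm3 (P : Prm) (hP : P.Ok) (W0 : ℕ) (hW0 : 0 < W0) :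
    ∃ N0 : ℕ, ∀ (S : MS) (WA WB : Fin (S.k + 1) → Finset ℕ) (T : TC.Dat) (y1 J0 J1 J2 : ℕ), N0 ≤ T.N → (datS3 S WA WB J0 J1 J2 T.y0).Ok P (W0 ^ 2 * T.N) →
    Cmp S WA WB → WinOk3 S WA WB T y1 → y1 ≤ T.y0 → (y1 : ℝ) ≤ (Real.log ((W0 ^ 2 * T.N : ℕ) : ℝ)) ^ 2 → 5 ≤ S.k → 64 * (S.k + 1) ^ 2 + 64 ≤ T.p0 →
    ((JJ (W0 ^ 2 * T.N) : ℕ) : ℝ) ^ 3 * (4 * y1) ^ (4 * S.k + 4) ≤ J0 * rho (famY3 S WA WB) →
    ∀ (v : ℕ) (o : Option (ℕ → ℝ)) (L : ℝ), TM P (W0 ^ 2 * T.N) v o L → ∀ a b : ℕ, a ≤ b → v * b ≤ J1 * (W0 ^ 2 * T.N) →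
    ((v = 1 ∧ o = none) ∨ J2 * (W0 ^ 2 * T.N) < v * (a + 1)) →
    ∑ n ∈ (Ioc a b).filter (fun n => n.Coprime (W0 ^ 2 * T.N) ∧ ∃ t ∈ TUP (famX S),
      1 / 80 * (VM P (W0 ^ 2 * T.N) * J0 * rho (famY3 S WA WB)) <
        BB P (W0 ^ 2 * T.N) (datS3 S WA WB J0 J1 J2 T.y0) (BdS S T y1) t ((v * n : ℕ) : ZMod (W0 ^ 2 * T.N))), wt T.y0 o n ≤
      L / JJ (W0 ^ 2 * T.N) * len P (W0 ^ 2 * T.N) v a b := by
  obtain ⟨N0, h⟩ := E3_core P hP
  refine ⟨N0, fun S WA WB T y1 J0 J1 J2 hN hok hc hw hy hyl hk hp0 hJ v o L hT a b hab hvb hcase => ?_⟩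
  have h1 : N0 ≤ W0 ^ 2 * T.N := hN.trans (Nat.le_mul_of_pos_left T.N (by positivity))
  exact h (W0 ^ 2 * T.N) S WA WB T y1 J0 J1 J2 h1 hok hc hw hy hyl hk hp0 hJ v o L hT a b hab hvb hcase

end Pool.Agent.Lib.T3B
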